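import Pool.Agent.W619.Y.Stm9
import Pool.Agent.W824.PG.Many

/-! The numerical dimension of a product with several curves, with boundary, from the one-curve
case. -/

set_option autoImplicit false
set_option linter.overlappingInstances false
set_option linter.unusedSectionVars false

universe u v

open FF IntermediateField Pool.Agent.W619.PQ Pool.Agent.W619.PL Pool.Agent.W619.TW
  Pool.Agent.W603.LV Pool.Agent.W619.Y Pool.Agent.W824.PG

namespace Pool.Agent.W53.PG.ManyB

section

variable {k : Type v} [Field k]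

theorem plc_symm {K K' : Type u} [Field K] [Algebra k K] [Field K'] [Algebra k K']
    (e : K ≃ₐ[k] K') (P : Place k K) : plc e (plc e.symm P) = P :=
  (plcEquiv e).right_inv P

theorem plc_symm' {K K' : Type u} [Field K] [Algebra k K] [Field K'] [Algebra k K']
    (e : K ≃ₐ[k] K') (P : Place k K') : plc e.symm (plc e P) = P :=
  (plcEquiv e).left_inv P

theorem transport1B [CharZero k] (h1 : S_TRANS.{u, v}) {K K' : Type u} [Field K] [Algebra k K]
    [Field K'] [Algebra k K'] (e : K ≃ₐ[k] K') {n : ℕ} (hess : Algebra.EssFiniteType k K)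
    (hn : Algebra.trdeg k K = n) (Bd : Place k K → Prop) :
    (IsPsef k K n Bd → IsPsef k K' n (fun w => Bd (plc e w))) ∧
    (NumNeg k K' n (fun w => Bd (plc e w)) → NumNeg k K n Bd) ∧
    ∀ h, NumLe k K' n (fun w => Bd (plc e w)) h → NumLe k K n Bd h := by
  let iA : Algebra K K' := e.toRingEquiv.toRingHom.toAlgebra
  have t1 : IsScalarTower k K K' := IsScalarTower.of_algebraMap_eq fun c => (e.commutes c).symm
  have f1 : FiniteDimensional K K' :=
    Module.Finite.of_surjective (Algebra.linearMap K K') e.surjective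
  have h := h1 k K K' n hn (fun y hy => fin_adj hess y hy) Bd
  have hB : BdUp (k := k) (K := K) (L := K') Bd = fun w => Bd (plc e w) := by
    funext w
    have hov : Over w (plc e w) 1 := by
      refine ⟨one_pos, fun f => ?_⟩
      rw [Nat.cast_one, one_mul]
      rfl
    apply propext
    constructor
    · rintro ⟨u, e', hu, hb⟩
      obtain ⟨h1, -⟩ := over_unique' hu hov
      rw [← h1]
      exact hb
    · intro hb
      exact ⟨plc e w, 1, hov, hb⟩
  rw [hB] at h
  exact h

/-- Transport of the three notions along an isomorphism. -/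
theorem transportB [CharZero k] (h1 : S_TRANS.{u, v}) {K K' : Type u} [Field K] [Algebra k K]
    [Field K'] [Algebra k K'] (e : K ≃ₐ[k] K') {n : ℕ} (hess : Algebra.EssFiniteType k K)
    (hn : Algebra.trdeg k K = n) (Bd : Place k K → Prop) :
    (IsPsef k K n Bd ↔ IsPsef k K' n (fun w => Bd (plc e w))) ∧
    (NumNeg k K n Bd ↔ NumNeg k K' n (fun w => Bd (plc e w))) ∧
    ∀ h, NumLe k K n Bd h ↔ NumLe k K' n (fun w => Bd (plc e w)) h := by
  have hess' : Algebra.EssFiniteType k K' := (Algebra.EssFiniteType.iff_of_algEquiv e).1 hess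
  have hn' : Algebra.trdeg k K' = n := by rw [← hn]; exact e.symm.trdeg_eq
  obtain ⟨a1, a2, a3⟩ := transport1B h1 e hess hn Bd
  obtain ⟨b1, b2, b3⟩ := transport1B h1 e.symm hess' hn' (fun w => Bd (plc e w))
  simp only [plc_symm] at b1 b2 b3
  exact ⟨⟨a1, b1⟩, ⟨b2, a2⟩, fun h => ⟨b3 h, a3 h⟩⟩

/-- Places over places of a smaller field. -/
theorem over_restrict {L : Type u} [Field L] [Algebra k L] {A N : IntermediateField k L}
    (hAN : A ≤ N) (P : Place k A → Prop) (w : Place k L) :
    (∃ (u : Place k A) (e : ℕ), Over w u e ∧ P u) ↔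
    ∃ (w0 : Place k N) (e1 : ℕ), Over w w0 e1 ∧
      ∃ (u0 : Place k (restrict hAN)) (e2 : ℕ), Over w0 u0 e2 ∧
        P (plc (restrictAlgEquiv hAN) u0) := by
  have key : ∀ (w0 : Place k N) (e1 : ℕ), Over w w0 e1 →
      ∀ (u0 : Place k (restrict hAN)) (e2 : ℕ), Over w0 u0 e2 →
      Over w (plc (restrictAlgEquiv hAN) u0) (e1 * e2) := by
    intro w0 e1 h1 u0 e2 h2
    refine ⟨Nat.mul_pos h1.1 h2.1, fun f => ?_⟩
    have h3 := h1.2 (⟨(f : L), hAN f.2⟩ : N)
    have h4 := h2.2 (restrictAlgEquiv hAN f)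
    have h5 : algebraMap (restrict hAN) N (restrictAlgEquiv hAN f) = (⟨(f : L), hAN f.2⟩ : N) := rfl
    rw [h5] at h4
    have h6 : algebraMap A L f = algebraMap N L (⟨(f : L), hAN f.2⟩ : N) := rfl
    rw [h6, h3, h4]
    have h7 : (plc (restrictAlgEquiv hAN) u0).ord f = u0.ord (restrictAlgEquiv hAN f) := rfl
    rw [h7]
    push_cast
    ring
  constructor
  · rintro ⟨u, e, hu, hP⟩
    obtain ⟨t, ht0, ht⟩ := u.surj
    have hw : w.ord (algebraMap A L t) ≠ 0 := by
      rw [hu.2, ht]
      have := hu.1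
      omega
    obtain ⟨e1, w0, hw0⟩ := exists_over (K := N) w ⟨⟨(t : L), hAN t.2⟩, hw⟩
    have hw1 : w0.ord (⟨(t : L), hAN t.2⟩ : N) ≠ 0 := by
      intro h0
      have h3 := hw0.2 (⟨(t : L), hAN t.2⟩ : N)
      rw [h0, mul_zero] at h3
      exact hw h3
    obtain ⟨e2, u0, hu0⟩ := exists_over (K := restrict hAN) w0 ⟨restrictAlgEquiv hAN t, hw1⟩
    have h4 := key w0 e1 hw0 u0 e2 hu0
    obtain ⟨h5, -⟩ := over_unique' h4 hu
    exact ⟨w0, e1, hw0, u0, e2, hu0, by rw [h5]; exact hP⟩
  · rintro ⟨w0, e1, hw0, u0, e2, hu0, hP⟩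
    exact ⟨_, _, key w0 e1 hw0 u0 e2 hu0, hP⟩

theorem ncard_plc {K K' : Type u} [Field K] [Algebra k K] [Field K'] [Algebra k K']
    (e : K ≃ₐ[k] K') (B : Place k K → Prop) :
    {p | B (plc e p)}.ncard = {p | B p}.ncard := by
  have h : {p | B p} = (plcEquiv e) '' {p | B (plc e p)} := by
    ext p
    constructor
    · intro hp
      refine ⟨plc e.symm p, ?_, plc_symm e p⟩
      show B (plc e (plc e.symm p))
      rw [plc_symm]
      exact hp
    · rintro ⟨q, hq, rfl⟩
      exact hq
  rw [h, Set.ncard_image_of_injective _ (plcEquiv e).injective]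

theorem finite_plc {K K' : Type u} [Field K] [Algebra k K] [Field K'] [Algebra k K']
    (e : K ≃ₐ[k] K') (B : Place k K → Prop) (h : {p | B p}.Finite) :
    {p | B (plc e p)}.Finite :=
  h.preimage ((plcEquiv e).injective.injOn)

theorem many (h1 : S_TRANS.{u, v}) (h2 : S_ONEB.{u, v}) [CharZero k]
    [IsAlgClosed k] (d n : ℕ) : ∀ (L : Type u) [Field L] [Algebra k L] (M : IntermediateField k L)
  (F : Fin n → IntermediateField k L) [∀ i, IsFF k (F i)] [Algebra.EssFiniteType k M]
  (BY : Place k M → Prop) (BF : ∀ i, Place k (F i) → Prop),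
    Algebra.trdeg k M = d → Algebra.trdeg k L = (d + n : ℕ) → M ⊔ (⨆ i, F i) = ⊤ →
    (∀ i, {p | BF i p}.Finite) →
    (IsPsef k L (d + n) (BdMany M F BY BF) → IsPsef k M d BY) ∧
    (NumNeg k M d BY → NumNeg k L (d + n) (BdMany M F BY BF)) ∧
    ((∃ i, canDeg k (F i) + {p | BF i p}.ncard < 0) →
      ¬ IsPsef k L (d + n) (BdMany M F BY BF) ∧ NumNeg k L (d + n) (BdMany M F BY BF)) ∧
    ∀ a : ℕ, (∀ i, 0 ≤ canDeg k (F i) + {p | BF i p}.ncard) → NumLe k M d BY a →
      NumLe k L (d + n) (BdMany M F BY BF)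
        (a + {i | canDeg k (F i) + ({p | BF i p}.ncard : ℤ) ≠ 0}.ncard) := by
  induction n with
  | zero =>
    intro L _ _ M F hF hess BY BF hM hL hsup hfin
    have hM' : M = ⊤ := by rw [← hsup]; simp [iSup_of_empty]
    let e : M ≃ₐ[k] L := (equivOfEq hM').trans topEquiv
    obtain ⟨a1, a2, a3⟩ := transportB h1 e hess hM BY
    have hB : BdMany M F BY BF = fun w => BY (plc e w) := by
      funext w
      have hov : Over w (plc e w) 1 := by
        refine ⟨one_pos, fun f => ?_⟩
        rw [Nat.cast_one, one_mul]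
        rfl
      apply propext
      constructor
      · rintro (⟨u, e', hu, hb⟩ | ⟨i, _⟩)
        · obtain ⟨h1, -⟩ := over_unique' hu hov
          rw [← h1]
          exact hb
        · exact i.elim0
      · intro hb
        exact Or.inl ⟨plc e w, 1, hov, hb⟩
    rw [hB]
    refine ⟨fun h => a1.2 h, fun h => a2.1 h, fun ⟨i, _⟩ => i.elim0, fun a ha h => ?_⟩
    have h0 : {i | canDeg k (F i) + ({p | BF i p}.ncard : ℤ) ≠ 0}.ncard = 0 := by
      have : {i | canDeg k (F i) + ({p | BF i p}.ncard : ℤ) ≠ 0} = ∅ := Set.eq_empty_of_isEmpty _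
      rw [this, Set.ncard_empty]
    rw [h0]
    exact (a3 a).1 h
  | succ n ih =>
    intro L _ _ M F hF hess BY BF hM hL hsup hfin
    let N : IntermediateField k L := M ⊔ ⨆ i : Fin n, F i.castSucc
    have hMN : M ≤ N := le_sup_left
    have hFN : ∀ i : Fin n, F i.castSucc ≤ N := fun i =>
      (le_iSup (fun i : Fin n => F i.castSucc) i).trans le_sup_right
    let M0 : IntermediateField k N := restrict hMN
    let F0 : Fin n → IntermediateField k N := fun i => restrict (hFN i)
    let BY0 : Place k M0 → Prop := fun u => BY (plc (restrictAlgEquiv hMN) u)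
    let BF0 : ∀ i, Place k (F0 i) → Prop := fun i p =>
      BF i.castSucc (plc (restrictAlgEquiv (hFN i)) p)
    have hF0 : ∀ i, IsFF k (F0 i) := fun i => isFF_equiv (restrictAlgEquiv (hFN i)) (hF _)
    have hess0 : Algebra.EssFiniteType k M0 :=
      (Algebra.EssFiniteType.iff_of_algEquiv (restrictAlgEquiv hMN)).1 hess
    have hM0 : Algebra.trdeg k M0 = d := by rw [← hM]; exact (restrictAlgEquiv hMN).symm.trdeg_eq
    have hsup0 : M0 ⊔ ⨆ i, F0 i = ⊤ := by
      apply lift_injective N
      rw [lift_sup, lift_top, lift_restrict]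
      have h4 : lift (⨆ i, F0 i) = ⨆ i : Fin n, F i.castSucc := by
        rw [lift, IntermediateField.map_iSup]
        exact iSup_congr fun i => lift_restrict (hFN i)
      rw [h4]
    have hN1 : Algebra.trdeg k N ≤ (d + n : ℕ) := trdeg_le_of_sup M0 F0 hM0 hsup0
    have hsupN : N ⊔ F (Fin.last n) = ⊤ := by
      rw [eq_top_iff, ← hsup]
      refine sup_le (hMN.trans le_sup_left) (iSup_le fun i => ?_)
      refine Fin.lastCases ?_ (fun j => ?_) i
      · exact le_sup_right
      · exact (hFN j).trans le_sup_left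
    obtain ⟨c, hc⟩ : ∃ c : ℕ, Algebra.trdeg k N = c :=
      Cardinal.lt_aleph0.1 (hN1.trans_lt (Cardinal.natCast_lt_aleph0))
    have hL1 : Algebra.trdeg k L ≤ (c + 1 : ℕ) := by
      have hFF : ∀ i : Fin 1, IsFF k ((fun _ : Fin 1 => F (Fin.last n)) i) := fun _ => hF _
      exact trdeg_le_of_sup N (fun _ : Fin 1 => F (Fin.last n)) hc (by rw [iSup_const, hsupN])
    have hcN : c = d + n := by
      rw [hL] at hL1
      rw [hc] at hN1
      have h5 : d + (n + 1) ≤ c + 1 := by exact_mod_cast hL1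
      have h6 : c ≤ d + n := by exact_mod_cast hN1
      omega
    subst hcN
    have hfin0 : ∀ i, {p | BF0 i p}.Finite := fun i =>
      finite_plc (restrictAlgEquiv (hFN i)) (BF i.castSucc) (hfin _)
    have hBd : BdTwo N (F (Fin.last n)) (BdMany M0 F0 BY0 BF0) (BF (Fin.last n)) =
        BdMany M F BY BF := by
      funext w
      apply propext
      have hMr := over_restrict hMN BY w
      have hFr := fun i : Fin n => over_restrict (hFN i) (BF i.castSucc) w
      constructor
      · rintro (⟨u, e, hu, (hb | ⟨i, hb⟩)⟩ | hb)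
        · exact Or.inl (hMr.2 ⟨u, e, hu, hb⟩)
        · exact Or.inr ⟨i.castSucc, (hFr i).2 ⟨u, e, hu, hb⟩⟩
        · exact Or.inr ⟨Fin.last n, hb⟩
      · rintro (hb | ⟨i, hb⟩)
        · obtain ⟨w0, e1, h5, h6⟩ := hMr.1 hb
          exact Or.inl ⟨w0, e1, h5, Or.inl h6⟩
        · revert hb
          refine Fin.lastCases ?_ (fun j => ?_) i
          · intro hb
            exact Or.inr hb
          · intro hb
            obtain ⟨w0, e1, h5, h6⟩ := (hFr j).1 hb
            exact Or.inl ⟨w0, e1, h5, Or.inr ⟨j, h6⟩⟩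
    obtain ⟨p1, p2, p3, p4⟩ := h2 k L N (F (Fin.last n)) (d + n) (BdMany M0 F0 BY0 BF0)
      (BF (Fin.last n)) hc hL hsupN (hfin _)
    rw [hBd] at p1 p2 p3 p4
    obtain ⟨q1, q2, q3, q4⟩ := ih N M0 F0 BY0 BF0 hM0 hc hsup0 hfin0
    obtain ⟨t1, t2, t3⟩ := transportB h1 (restrictAlgEquiv hMN) hess hM BY
    have hcan : ∀ i : Fin n, canDeg k (F0 i) = canDeg k (F i.castSucc) := fun i =>
      (canDeg_equiv (restrictAlgEquiv (hFN i))).symm
    have hnc : ∀ i : Fin n, {p | BF0 i p}.ncard = {p | BF i.castSucc p}.ncard := fun i =>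
      ncard_plc (restrictAlgEquiv (hFN i)) (BF i.castSucc)
    refine ⟨fun h => t1.2 (q1 (p1 h)), fun h => p2 (q2 (t2.1 h)), ?_, fun a ha h => ?_⟩
    · rintro ⟨i, hi⟩
      revert hi
      refine Fin.lastCases ?_ (fun j => ?_) i
      · intro hi
        exact p3 hi
      · intro hi
        obtain ⟨r1, r2⟩ := q3 ⟨j, by rw [hcan, hnc]; exact hi⟩
        exact ⟨fun h => r1 (p1 h), p2 r2⟩
    · have q := q4 a (fun i => by rw [hcan, hnc]; exact ha _) ((t3 a).1 h)
      obtain ⟨o1, o2⟩ := p4 _ q (ha _)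
      have hcard := ncard_succ (fun i => canDeg k (F i) + ({p | BF i p}.ncard : ℤ))
      have hset : {i : Fin n | canDeg k (F0 i) + ({p | BF0 i p}.ncard : ℤ) ≠ 0} =
          {i : Fin n | canDeg k (F i.castSucc) + ({p | BF i.castSucc p}.ncard : ℤ) ≠ 0} := by
        ext i
        simp only [Set.mem_ofPred_eq, hcan, hnc]
      rw [hset] at o1 o2
      rw [hcard]
      by_cases h0 : canDeg k (F (Fin.last n)) + ({p | BF (Fin.last n) p}.ncard : ℤ) = 0
      · rw [if_neg (by simpa using h0), add_zero]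
        exact o1 h0
      · rw [if_pos h0, ← add_assoc]
        exact o2

end

/-- The numerical dimension of `Y × C 1 × ... × C n`, with boundary. -/
theorem main (h1 : S_TRANS.{u, v}) (h2 : S_ONEB.{u, v}) : S_MANYB.{u, v} := by
  intro k L _ _ _ _ _ d n M F _ _ BY BF
  exact many h1 h2 d n L M F BY BF

end Pool.Agent.W53.PG.ManyB
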